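import Pool.Agent.K1H88.GT.Stm2
import Pool.Agent.K1H3.GT.Momt

/-!
Project GT, piece MOMP: the second moment over `α` of the correlations of `μ(n) e(α φ(n))`.
-/

set_option autoImplicit false

namespace Pool.Agent.K1H97.GT

open Finset MeasureTheory Pool.Agent.K1H88.GT Pool.Agent.K1H3.GT

/-- the frequencies -/
noncomputable def frP (φ : ℕ → ℤ) (p : ℕ × ℕ) : ℝ :=
  2 * Real.pi * ((φ (p.1 - p.2) : ℝ) - (φ p.1 : ℝ))

lemma fa_eq (φ : ℕ → ℤ) (α : ℝ) (n : ℕ) :
    fa φ α n = (((ArithmeticFunction.moebius n : ℤ) : ℝ) : ℂ) *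
      Complex.exp ((α * (2 * Real.pi * (φ n : ℝ)) : ℝ) * Complex.I) := by
  unfold fa
  push_cast
  congr 2
  ring

lemma conj_fa_eq (φ : ℕ → ℤ) (α : ℝ) (n : ℕ) :
    (starRingEnd ℂ) (fa φ α n) = (((ArithmeticFunction.moebius n : ℤ) : ℝ) : ℂ) *
      Complex.exp ((α * (-(2 * Real.pi * (φ n : ℝ))) : ℝ) * Complex.I) := by
  rw [fa_eq, map_mul, ← Complex.exp_conj, map_mul, Complex.conj_I, Complex.conj_ofReal,
    Complex.conj_ofReal]
  congr 2
  push_cast
  ring

lemma ZZ_eqP (φ : ℕ → ℤ) (α : ℝ) (U1 U2 j : ℕ) :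
    ZZ (fa φ α) U1 U2 j = ES (Ioc (U1 + j) (U2 + j) ×ˢ Icc 1 j) cf (frP φ) α := by
  unfold ZZ DD ES
  rw [Finset.sum_product]
  refine Finset.sum_nbij' (fun u => u + j + 1) (fun m => m - j - 1) ?_ ?_ ?_ ?_ ?_
  · intro u hu
    simp only [Finset.mem_Ico, Finset.mem_Ioc] at hu ⊢
    omega
  · intro u hu
    simp only [Finset.mem_Ico, Finset.mem_Ioc] at hu ⊢
    omega
  · intro u hu
    simp only [Finset.mem_Ico] at hu
    omega
  · intro u hu
    simp only [Finset.mem_Ioc] at hu
    omega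
  · intro u hu
    rw [Finset.mul_sum]
    refine Finset.sum_nbij' (fun n => u + j + 1 - n) (fun h => u + j + 1 - h) ?_ ?_ ?_ ?_ ?_
    · intro n hn
      simp only [Finset.mem_Icc, Finset.mem_Ioc] at hn ⊢
      omega
    · intro n hn
      simp only [Finset.mem_Icc, Finset.mem_Ioc] at hn ⊢
      omega
    · intro n hn
      simp only [Finset.mem_Ioc] at hn
      omega
    · intro n hn
      simp only [Finset.mem_Icc] at hn
      omega
    · intro n hn
      simp only [Finset.mem_Ioc] at hn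
      have e : u + j + 1 - (u + j + 1 - n) = n := by omega
      rw [conj_fa_eq, fa_eq]
      unfold cf frP
      simp only [e]
      rw [show ∀ a b c d : ℂ, a * b * (c * d) = (a * c) * (b * d) by intros; ring, ← Complex.exp_add]
      push_cast
      congr 2
      ring

lemma int_cos_int (k : ℤ) : ∫ t in (0 : ℝ)..1, Real.cos (t * (2 * Real.pi * (k : ℝ))) =
    if k = 0 then 1 else 0 := by
  split_ifs with h
  · simp [h]
  · have hk : (2 * Real.pi * (k : ℝ)) ≠ 0 := by
      have : (k : ℝ) ≠ 0 := by exact_mod_cast h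
      have hp := Real.pi_pos.ne'
      positivity
    rw [intervalIntegral.integral_comp_mul_right (fun x => Real.cos x) hk, integral_cos, zero_mul,
      one_mul, Real.sin_zero, sub_zero]
    have h1 : Real.sin (2 * Real.pi * (k : ℝ)) = 0 := by
      have := Real.sin_int_mul_pi (2 * k)
      push_cast at this
      rw [← this]
      congr 1
      ring
    rw [h1, smul_zero]

theorem t_MOMP : S_MOMP := by
  intro φ U1 U2 j
  classical
  simp only [ZZ_eqP]
  set P : Finset (ℕ × ℕ) := Ioc (U1 + j) (U2 + j) ×ˢ Icc 1 j with hP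
  have hquad : quad (U1 + j) (U2 + j) j = P ×ˢ P := rfl
  simp only [normsq]
  rw [intervalIntegral.integral_finsetSum]
  · have hsol : ((solP φ (U1 + j) (U2 + j) j).card : ℝ) = ∑ q ∈ P ×ˢ P,
        if φ q.1.1 - φ (q.1.1 - q.1.2) = φ q.2.1 - φ (q.2.1 - q.2.2) then (1 : ℝ) else 0 := by
      unfold solP
      rw [hquad, Finset.card_filter]
      push_cast
      rfl
    rw [hsol]
    apply Finset.sum_le_sum
    intro q _
    rw [intervalIntegral.integral_const_mul]
    have e : ∀ t : ℝ, t * (frP φ q.1 - frP φ q.2) = t * (2 * Real.pi *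
        (((φ (q.1.1 - q.1.2) - φ q.1.1) - (φ (q.2.1 - q.2.2) - φ q.2.1) : ℤ) : ℝ)) := by
      intro t
      unfold frP
      push_cast
      ring
    simp only [e]
    rw [int_cos_int]
    have hc : ∀ p : ℕ × ℕ, |cf p| ≤ 1 := by
      intro p
      unfold cf
      rw [abs_mul]
      exact mul_le_one₀ (mu_le _) (abs_nonneg _) (mu_le _)
    have h4 : cf q.1 * cf q.2 ≤ 1 := by
      refine (le_abs_self _).trans ?_
      rw [abs_mul]
      exact mul_le_one₀ (hc _) (abs_nonneg _) (hc _)
    by_cases h : φ q.1.1 - φ (q.1.1 - q.1.2) = φ q.2.1 - φ (q.2.1 - q.2.2)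
    · rw [if_pos h, if_pos (by omega), mul_one]
      exact h4
    · rw [if_neg h, if_neg (by omega), mul_zero]
  · intro q _
    apply Continuous.intervalIntegrable
    fun_prop

end Pool.Agent.K1H97.GT
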